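import Mathlib
import Pool.Agent.H607.Arb.Along
import Pool.Agent.H607.Arb.Slow
import Pool.Agent.H607.Arb.Inv

/-!
# Arbitrarily few changes of the ternary digits of `√2`

Let `s ≥ 2`. In the expansion in base `s` of an arbitrary real number `x`, for instance of `√2` in
base three, digits are changed at a set `A` of places which is as sparse as one likes: at most
`f n` of the first `n` places, where `f → ∞` is an arbitrary function. The set `A` does not depend
on `x`.

* This suffices to get a number `y` which is normal to all bases `b` prime to `s` at once along a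
  set of lengths of upper density one: for these `N` every word of `k` digits in base `b` has
  among the first `N` places a frequency which tends to `b ^ (-k)`. In particular every decimal
  digit occurs infinitely often in `y`.
* Upper density cannot be replaced by lower density: for all `s, b ≥ 2` there are a function
  `f → ∞` and a number `x` such that no `y` whose digits in base `s` differ from those of `x` at
  no more than `f n` of the first `n` places for infinitely many `n` is normal in base `b` along a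
  set of lengths of positive lower density.
* The case of `√2`: for every `f → ∞` some `y` whose ternary digits differ from those of `√2` at
  no more than `f n` of the first `n` places, for every `n`, has every decimal digit infinitely
  often.

Idea of the proof. For a finite number of bases and a given precision, at most a bounded number
`C` of the numbers `z + k / s ^ n`, `k < s ^ n`, are not nearly normal at a given length
`N ≥ s ^ n` (`bad_all`, a fourth moment estimate of an earlier run). Hence a window of boundedly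
many places, as far out as one likes, contains a choice of the digits for which the number is
nearly normal at most lengths up to `M`; the next window is put behind all the places which
influence the first `M` places in base `b`, so that the later changes do no harm. For the second
part the digits of `x` in base `b` agree on the block `2 ^ (e ^ 2) ≤ t < 2 ^ ((e + 1) ^ 2)` with those of
the `e`-th of the numbers `- u / s ^ n`; the quotients of the ends of the blocks tend to infinity.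
-/

set_option autoImplicit false

open Filter Topology

namespace Pool.Agent.Results.MP_175f55_nt.ArbitrarilyFewChanges

/-- the digit of index `i` after the point of `y` in base `s`, `i = 0, 1, …` -/
noncomputable def dig (s : ℕ) (y : ℝ) (i : ℕ) : ℤ := ⌊y * (s : ℝ) ^ (i + 1)⌋ % s

/-- `y` is normal in base `b` along the set `S` of lengths: for every word `w` of `k` digits the
number of its occurrences which begin at one of the first `n` places is asymptotically
`n / b ^ k`, as `n` tends to infinity inside `S` -/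
def NormalAlong (b : ℕ) (S : Set ℕ) (y : ℝ) : Prop :=
  ∀ k : ℕ, 0 < k → ∀ w : Fin k → Fin b,
    Tendsto (fun n : ℕ => (((Finset.range n).filter (fun i : ℕ => ∀ j : Fin k,
      dig b y (i + (j : ℕ)) = ((w j : ℕ) : ℤ))).card : ℝ) / n)
      (atTop ⊓ 𝓟 S) (𝓝 (1 / (b : ℝ) ^ k))

lemma nal_iff (b : ℕ) (S : Set ℕ) (y : ℝ) : Pool.Agent.H607.Arb.Nal b S y ↔ NormalAlong b S y := by
  unfold Pool.Agent.H607.Arb.Nal NormalAlong dig
  have h : ∀ i j : ℕ, i + 1 + j = i + j + 1 := fun i j => by ring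
  simp only [h]

theorem changes (s : ℕ) (hs : 2 ≤ s) (f : ℕ → ℕ) (hf : Tendsto f atTop atTop) :
    ∃ A : Set ℕ, (∀ n, {i : ℕ | i < n ∧ i ∈ A}.ncard ≤ f n) ∧
      ∀ x : ℝ, ∃ y : ℝ, ⌊y⌋ = ⌊x⌋ ∧ (∀ i, i ∉ A → dig s y i = dig s x i) ∧
        ∃ S : Set ℕ, (∀ ε : ℝ, 0 < ε → ∃ᶠ n : ℕ in atTop,
            (1 - ε) * n ≤ ({N : ℕ | N < n ∧ N ∈ S}.ncard : ℝ)) ∧
          ∀ b : ℕ, 2 ≤ b → b.Coprime s → NormalAlong b S y := by
  obtain ⟨A, hA, hx⟩ := Pool.Agent.H607.Arb.build s hs f hf
  refine ⟨A, hA, fun x => ?_⟩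
  obtain ⟨y, h1, h2, M, h3, h4⟩ := hx x
  obtain ⟨S, hS1, hS2⟩ := Pool.Agent.H607.Arb.along s y M h3 h4
  exact ⟨y, h1, h2, S, hS1, fun b hb hbs => (nal_iff b S y).1 (hS2 b hb hbs)⟩

theorem limit (s b : ℕ) (hs : 2 ≤ s) (hb : 2 ≤ b) :
    ∃ f : ℕ → ℕ, Tendsto f atTop atTop ∧ ∃ x : ℝ, ∀ y : ℝ,
      (∃ᶠ n : ℕ in atTop, {i : ℕ | i < n ∧ dig s y i ≠ dig s x i}.ncard ≤ f n) →
        ∀ S : Set ℕ, NormalAlong b S y → ∀ ε : ℝ, 0 < ε →
          ∃ᶠ n : ℕ in atTop, ({N : ℕ | N < n ∧ N ∈ S}.ncard : ℝ) ≤ ε * n := by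
  obtain ⟨f, hf1, hf2⟩ := Pool.Agent.H607.Arb.slowf (Pool.Agent.H607.Arb.FF s b)
  obtain ⟨x, hx⟩ := Pool.Agent.H607.Arb.slow1 s b hs hb
  refine ⟨f, hf1, x, fun y hy S hS ε hε => ?_⟩
  apply hx y _ S ((nal_iff b S y).2 hS) ε hε
  have h1 := hf2 {i : ℕ | dig s y i ≠ dig s x i} hy
  refine h1.mono fun n hn i hi1 hi2 => ?_
  by_contra hcon
  exact hn i hi1 hi2 hcon

/-- along an infinite set of lengths normality gives infinitely many occurrences -/
lemma infinite_of_along (b : ℕ) (hb : 2 ≤ b) (S : Set ℕ) (hS : ∀ ε : ℝ, 0 < ε →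
      ∃ᶠ n : ℕ in atTop, (1 - ε) * n ≤ ({N : ℕ | N < n ∧ N ∈ S}.ncard : ℝ)) (y : ℝ)
    (h : NormalAlong b S y) (d : ℕ) (hd : d < b) : {i : ℕ | dig b y i = d}.Infinite := by
  intro hfin
  obtain ⟨L, hL⟩ := hfin.bddAbove
  -- S is infinite
  have hSinf : ∀ m : ℕ, ∃ N ∈ S, m ≤ N := by
    intro m
    by_contra hcon
    push Not at hcon
    have h1 := (hS (1 / 2) (by norm_num)).and_eventually (eventually_ge_atTop (2 * m + 1))
    obtain ⟨n, hn1, hn2⟩ := h1.exists
    have h2 : {N : ℕ | N < n ∧ N ∈ S} ⊆ Set.Iio m := fun N hN => hcon N hN.2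
    have h3 := Set.ncard_le_ncard h2 (Set.finite_Iio m)
    rw [← Finset.coe_range, Set.ncard_coe_finset, Finset.card_range] at h3
    have h4 : ({N : ℕ | N < n ∧ N ∈ S}.ncard : ℝ) ≤ m := by exact_mod_cast h3
    have h5 : (2 * m + 1 : ℝ) ≤ n := by exact_mod_cast hn2
    linarith
  have h0 := h 1 one_pos (fun _ => ⟨d, hd⟩)
  rw [Metric.tendsto_nhds] at h0
  have hb0 : (0 : ℝ) < b := by exact_mod_cast (by omega : 0 < b)
  have h1 := h0 (1 / (2 * (b : ℝ))) (by positivity)
  rw [eventually_inf_principal] at h1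
  obtain ⟨N0, hN0⟩ := eventually_atTop.1 h1
  obtain ⟨N, hNS, hN⟩ := hSinf (N0 + 2 * b * (L + 1) + 1)
  have h2 := hN0 N (by omega) hNS
  have hcard : ((Finset.range N).filter (fun i : ℕ => ∀ j : Fin 1,
      dig b y (i + (j : ℕ)) = (((⟨d, hd⟩ : Fin b) : ℕ) : ℤ))).card ≤ L + 1 := by
    rw [← Finset.card_range (L + 1)]
    apply Finset.card_le_card
    intro i hi
    rw [Finset.mem_filter] at hi
    have h3 := hi.2 0
    have h4 : i ∈ {i : ℕ | dig b y i = d} := by simpa using h3
    have h5 := hL h4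
    rw [Finset.mem_range]
    omega
  rw [Real.dist_eq, abs_lt] at h2
  have h3 := h2.1
  have hNpos : (0 : ℝ) < N := by exact_mod_cast (by omega : 0 < N)
  have h4 : (((Finset.range N).filter (fun i : ℕ => ∀ j : Fin 1,
      dig b y (i + (j : ℕ)) = (((⟨d, hd⟩ : Fin b) : ℕ) : ℤ))).card : ℝ) / N ≤ 1 / (2 * b) := by
    rw [div_le_div_iff₀ hNpos (by positivity)]
    have h5 : (((Finset.range N).filter (fun i : ℕ => ∀ j : Fin 1,
      dig b y (i + (j : ℕ)) = (((⟨d, hd⟩ : Fin b) : ℕ) : ℤ))).card : ℝ) ≤ L + 1 := by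
      exact_mod_cast hcard
    have h6 : (2 * b * (L + 1) : ℝ) ≤ N := by
      have : 2 * b * (L + 1) ≤ N := by omega
      exact_mod_cast this
    nlinarith
  have h5 : (1 : ℝ) / (b : ℝ) ^ 1 = 2 * (1 / (2 * b)) := by
    rw [pow_one]
    field_simp
  have h6 : (0 : ℝ) < 1 / (2 * b) := by positivity
  linarith

theorem result :
    (∀ s : ℕ, 2 ≤ s → ∀ f : ℕ → ℕ, Tendsto f atTop atTop →
      ∃ A : Set ℕ, (∀ n, {i : ℕ | i < n ∧ i ∈ A}.ncard ≤ f n) ∧
        ∀ x : ℝ, ∃ y : ℝ, ⌊y⌋ = ⌊x⌋ ∧ (∀ i, i ∉ A → dig s y i = dig s x i) ∧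
          ∃ S : Set ℕ, (∀ ε : ℝ, 0 < ε → ∃ᶠ n : ℕ in atTop,
              (1 - ε) * n ≤ ({N : ℕ | N < n ∧ N ∈ S}.ncard : ℝ)) ∧
            ∀ b : ℕ, 2 ≤ b → b.Coprime s → NormalAlong b S y) ∧
    (∀ s b : ℕ, 2 ≤ s → 2 ≤ b →
      ∃ f : ℕ → ℕ, Tendsto f atTop atTop ∧ ∃ x : ℝ, ∀ y : ℝ,
        (∃ᶠ n : ℕ in atTop, {i : ℕ | i < n ∧ dig s y i ≠ dig s x i}.ncard ≤ f n) →
          ∀ S : Set ℕ, NormalAlong b S y → ∀ ε : ℝ, 0 < ε →
            ∃ᶠ n : ℕ in atTop, ({N : ℕ | N < n ∧ N ∈ S}.ncard : ℝ) ≤ ε * n) ∧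
    (∀ f : ℕ → ℕ, Tendsto f atTop atTop → ∃ y : ℝ, ⌊y⌋ = 1 ∧
      (∀ n, {i : ℕ | i < n ∧ dig 3 y i ≠ dig 3 (Real.sqrt 2) i}.ncard ≤ f n) ∧
        ∀ d : ℕ, d < 10 → Set.Infinite {n : ℕ | ⌊(y * (10 : ℝ) ^ n)⌋₊ % 10 = d}) := by
  refine ⟨changes, limit, fun f hf => ?_⟩
  obtain ⟨A, hA, hx⟩ := changes 3 (by norm_num) f hf
  obtain ⟨y, h1, h2, S, h3, h4⟩ := hx (Real.sqrt 2)
  refine ⟨y, ?_, fun n => ?_, fun d hd => ?_⟩
  · rw [h1, Int.floor_eq_iff]
    have h5 : Real.sqrt 2 < 2 := by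
      rw [Real.sqrt_lt' (by norm_num)]
      norm_num
    have h6 : 1 ≤ Real.sqrt 2 := by
      rw [Real.one_le_sqrt]
      norm_num
    constructor
    · exact_mod_cast h6
    · push_cast
      linarith
  · refine le_trans (Set.ncard_le_ncard ?_ ((Set.finite_Iio n).subset fun j hj => hj.1)) (hA n)
    rintro i ⟨hi1, hi2⟩
    refine ⟨hi1, ?_⟩
    by_contra hcon
    exact hi2 (h2 i hcon)
  · have h5 := infinite_of_along 10 (by norm_num) S h3 y (h4 10 (by norm_num) (by decide)) d hd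
    have hy0 : 0 ≤ y := by
      have h6 : (1 : ℤ) ≤ ⌊y⌋ := by
        rw [h1, Int.le_floor]
        have : 1 ≤ Real.sqrt 2 := by
          rw [Real.one_le_sqrt]
          norm_num
        exact_mod_cast this
      have h7 := Int.le_floor.1 h6
      push_cast at h7
      linarith
    have h6 : (fun i : ℕ => i + 1) '' {i : ℕ | dig 10 y i = d} ⊆
        {n : ℕ | ⌊(y * (10 : ℝ) ^ n)⌋₊ % 10 = d} := by
      rintro n ⟨i, hi, rfl⟩
      have h7 : dig 10 y i = d := hi
      unfold dig at h7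
      have h8 : ((⌊(y * (10 : ℝ) ^ (i + 1))⌋₊ : ℕ) : ℤ) = ⌊(y * (10 : ℝ) ^ (i + 1))⌋ :=
        Int.natCast_floor_eq_floor (by positivity)
      have h9 : (((⌊(y * (10 : ℝ) ^ (i + 1))⌋₊ % 10 : ℕ)) : ℤ) = d := by
        push_cast
        rw [h8]
        exact_mod_cast h7
      exact_mod_cast h9
    refine (h5.image ?_).mono h6
    intro a _ b _ hab
    simpa using hab

end Pool.Agent.Results.MP_175f55_nt.ArbitrarilyFewChanges
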