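import Pool.Agent.H609.RI.Main

/-!
# The initial digits of roots of explicit integers

Let `b ≥ 2` be the base. The first `N` digits after the point of the number `α`

* `α = ((b ^ n) ^ d + 1) ^ (1 / d)`, an algebraic integer of degree `d`, if some prime factor of `d ≥ 2` does not
  divide `b`, for `N ≤ c n log n`,
* `α = √((p ^ m b ^ n) ^ 2 + 4)`, an irrational square root of an integer, where `p` is an odd prime which does
  not divide `b` and `p ^ (2 m) ≥ log n`, for `N ≤ c n log n / m`,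

are equidistributed with an error `O(n)`: the number of the `j < N` for which the fractional part of `b ^ j α` lies
in `[u, v)` is `(v - u) N + O(n)`, with a constant which depends on `b`, `d` or `p` only. For instance every digit
`0, …, 9` stands `N / 10 + O(n)` times among the first `N` decimal digits of `√((3 ^ m 10 ^ n) ^ 2 + 4)` and of
the cube root of `10 ^ (3 n) + 1`. The height of the integers is `e ^ (O(n + m))`, so these are the digits up to an
arbitrarily large multiple of the logarithm of the height. No element is removed from the families, and nothing is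
multiplied or divided by auxiliary numbers.

The condition on `d` is necessary: if all prime factors of `d` divide the base `b`, then all but
`C (N / n + 1) ^ 2` of the first `N` digits of `((b ^ n) ^ d + 1) ^ (1 / d)` are `0` or `b - 1`; for instance the
decimal digits of `√(10 ^ (2 n) + 1)`.

Proof (in `Pool.Agent.H609.RI`). `(1 + d ^ 2 x) ^ (1 / d) = ∑ a k x ^ k` with integers `a k` (`exists_root`), which
satisfy `(k + 1) a (k + 1) = d (1 - d k) a k`. With `x = 1 / Q`, `Q = d ^ 2 b ^ (d n)` or `p ^ (2 m) b ^ (2 n)`, the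
digits in the `i`-th block of a constant times `n` places are those of the rational number
`∑_{k ≤ i} a k Q ^ (-k)`, up to `O(m i)` places at the ends of the block. The power `p ^ r` of `p` in its
denominator is computed exactly (for the square roots by the divisibility of the numbers of Catalan),
`i - 1 ≤ r`, and the denominator is at most `p ^ (2 m i)` or `d ^ (2 i)`, apart from prime factors of `b`. The powers
of `b` modulo `p ^ r H` over a suitable full period form a residue class modulo a fixed power of `p` times `H`, so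
the digits of the block are equidistributed up to `O(n / p ^ r + p ^ r H)`.
-/

set_option autoImplicit false

namespace Pool.Agent.Results.MP_175f55_nt.ExplicitIntegers

open Finset

/-- the fractional parts of `α, b α, …, b ^ (N - 1) α` are equidistributed up to the error `E`: for all
`0 ≤ u ≤ v ≤ 1` the number of the `j < N` with `u ≤ {b ^ j α} < v` differs from `(v - u) N` by at most `E` -/
def EquidistributedUpTo (b N : ℕ) (E α : ℝ) : Prop :=
  ∀ u v : ℝ, 0 ≤ u → u ≤ v → v ≤ 1 →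
    |((({j ∈ range N | u ≤ Int.fract ((b : ℝ) ^ j * α) ∧ Int.fract ((b : ℝ) ^ j * α) < v} :
      Finset ℕ).card : ℕ) : ℝ) - (v - u) * N| ≤ E

/-- the digit of `α` in base `b` at the place `j + 1` after the point -/
noncomputable def digit (b j : ℕ) (α : ℝ) : ℤ := ⌊(b : ℝ) * Int.fract ((b : ℝ) ^ j * α)⌋

lemma of_Er {b N : ℕ} {E α : ℝ}
    (h : ∀ y : ℝ, 0 ≤ y → y ≤ 1 → |Pool.Agent.H609.XP.Er (fun j => (b : ℝ) ^ j * α) y 0 N| ≤ E) :
    EquidistributedUpTo b N (2 * E) α := by
  classical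
  intro u v hu huv hv
  have h1 := h u hu (by linarith)
  have h2 := h v (by linarith) hv
  unfold Pool.Agent.H609.XP.Er at h1 h2
  simp only [zero_add] at h1 h2
  have h3 : ({j ∈ range N | u ≤ Int.fract ((b : ℝ) ^ j * α) ∧
      Int.fract ((b : ℝ) ^ j * α) < v} : Finset ℕ) =
      ({j ∈ range N | Int.fract ((b : ℝ) ^ j * α) < v} : Finset ℕ) \
        ({j ∈ range N | Int.fract ((b : ℝ) ^ j * α) < u} : Finset ℕ) := by
    ext j
    simp only [mem_filter, mem_sdiff, mem_range]
    constructor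
    · rintro ⟨h4, h5, h6⟩
      exact ⟨⟨h4, h6⟩, fun h7 => absurd h7.2 (not_lt.2 h5)⟩
    · rintro ⟨⟨h4, h6⟩, h7⟩
      refine ⟨h4, ?_, h6⟩
      by_contra h8
      exact h7 ⟨h4, not_le.1 h8⟩
  have h4 : ({j ∈ range N | Int.fract ((b : ℝ) ^ j * α) < u} : Finset ℕ) ⊆
      ({j ∈ range N | Int.fract ((b : ℝ) ^ j * α) < v} : Finset ℕ) := by
    intro j hj
    rw [mem_filter] at hj ⊢
    exact ⟨hj.1, lt_of_lt_of_le hj.2 huv⟩
  rw [h3, card_sdiff_of_subset h4, Nat.cast_sub (card_le_card h4)]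
  rw [abs_le] at h1 h2 ⊢
  constructor <;> linarith [h1.1, h1.2, h2.1, h2.2]

lemma irr_sqrt {A : ℕ} (hA : 2 ≤ A) : Irrational (Real.sqrt ((A : ℝ) ^ 2 + 4)) := by
  have h1 : ((A : ℝ) ^ 2 + 4) = ((A ^ 2 + 4 : ℕ) : ℝ) := by push_cast; rfl
  rw [h1, irrational_sqrt_natCast_iff]
  rintro ⟨r, hr⟩
  have h2 : A < r := by
    by_contra hle
    push Not at hle
    nlinarith
  have h3 : (A + 1) * (A + 1) ≤ r * r := Nat.mul_le_mul h2 h2
  nlinarith

lemma dvd_pow_of {d b : ℕ} (hd : 1 ≤ d) (hb : 1 ≤ b) (h : ∀ q : ℕ, q.Prime → q ∣ d → q ∣ b) :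
    d ∣ b ^ d := by
  rw [← Nat.factorization_le_iff_dvd (by omega) (pow_ne_zero _ (by omega))]
  intro q
  rw [Nat.factorization_pow, Finsupp.smul_apply, smul_eq_mul]
  by_cases hq : q.Prime
  · by_cases hqd : q ∣ d
    · have h1 : 1 ≤ b.factorization q := (hq.dvd_iff_one_le_factorization (by omega)).1 (h q hq hqd)
      have h2 : d.factorization q < d := Nat.factorization_lt q (by omega)
      nlinarith
    · rw [Nat.factorization_eq_zero_of_not_dvd hqd]
      exact Nat.zero_le _
  · rw [Nat.factorization_eq_zero_of_not_prime _ hq]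
    exact Nat.zero_le _

/-- the number `((b ^ n) ^ d + 1) ^ (1 / d)` -/
noncomputable def root (b d n : ℕ) : ℝ := (((b : ℝ) ^ n) ^ d + 1) ^ (1 / (d : ℝ))

/-- **The initial digits of roots of explicit integers.** Let `b ≥ 2` be the base.

1. For every odd prime `p` which does not divide `b` there are `c, C > 0` such that for all large `n` and all
   `m ≥ 1` with `p ^ (2 m) ≥ log n` the number `√((p ^ m b ^ n) ^ 2 + 4)` is irrational and its first `N` digits are
   equidistributed up to the error `C n`, for all `N ≤ c n log n / m`.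
2. For all `d ≥ 2` and all `n` the number `((b ^ n) ^ d + 1) ^ (1 / d)` has the degree `d`.
3. If some prime factor of `d ≥ 2` does not divide `b`, then there are `c, C > 0` such that for all large `n` the
   first `N` digits of `((b ^ n) ^ d + 1) ^ (1 / d)` are equidistributed up to the error `C n`, for all
   `N ≤ c n log n`.
4. If all prime factors of `d ≥ 2` divide `b`, then there is `C > 0` such that for all `n ≥ 1` and all `N` all but
   `C (N / n + 1) ^ 2` of the first `N` digits of `((b ^ n) ^ d + 1) ^ (1 / d)` are `0` or `b - 1`. -/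
theorem result (b : ℕ) (hb : 2 ≤ b) :
    (∀ p : ℕ, p.Prime → Odd p → ¬ p ∣ b → ∃ c C : ℝ, 0 < c ∧ 0 < C ∧ ∃ n₀ : ℕ, ∀ n : ℕ, n₀ ≤ n →
      ∀ m : ℕ, 1 ≤ m → Real.log n ≤ (p : ℝ) ^ (2 * m) →
        Irrational (Real.sqrt (((p : ℝ) ^ m * (b : ℝ) ^ n) ^ 2 + 4)) ∧
        ∀ N : ℕ, (N : ℝ) ≤ c * (n * Real.log n) / m →
          EquidistributedUpTo b N (C * n) (Real.sqrt (((p : ℝ) ^ m * (b : ℝ) ^ n) ^ 2 + 4))) ∧
    (∀ d n : ℕ, 2 ≤ d → (minpoly ℚ (root b d n)).natDegree = d) ∧
    (∀ d : ℕ, 2 ≤ d → (∃ q : ℕ, q.Prime ∧ q ∣ d ∧ ¬ q ∣ b) → ∃ c C : ℝ, 0 < c ∧ 0 < C ∧ ∃ n₀ : ℕ,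
      ∀ n : ℕ, n₀ ≤ n → ∀ N : ℕ, (N : ℝ) ≤ c * (n * Real.log n) →
        EquidistributedUpTo b N (C * n) (root b d n)) ∧
    ∀ d : ℕ, 2 ≤ d → (∀ q : ℕ, q.Prime → q ∣ d → q ∣ b) → ∃ C : ℝ, 0 < C ∧ ∀ n N : ℕ, 1 ≤ n →
      (({j : ℕ | j < N ∧ digit b j (root b d n) ≠ 0 ∧
        digit b j (root b d n) ≠ (b : ℤ) - 1}.ncard : ℕ) : ℝ) ≤ C * ((N : ℝ) / n + 1) ^ 2 := by
  refine ⟨fun p hp hp2 hpb => ?_, fun d n hd => ?_, fun d hd hq => ?_, fun d hd hq => ?_⟩
  · obtain ⟨c1, C1, hc1, hC1, n1, h1⟩ := Pool.Agent.H609.RI.fb b p hb hp hp2 hpb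
    refine ⟨c1, 2 * C1, hc1, by positivity, max n1 1, fun n hn m hm hlogm => ?_⟩
    have hn1 : n1 ≤ n := le_trans (le_max_left _ _) hn
    have hn3 : 1 ≤ n := le_trans (le_max_right _ _) hn
    refine ⟨?_, fun N hN => ?_⟩
    · have h3 : ((p : ℝ) ^ m * (b : ℝ) ^ n) = ((p ^ m * b ^ n : ℕ) : ℝ) := by push_cast; rfl
      rw [h3]
      apply irr_sqrt
      have h4 : 1 ≤ p ^ m := Nat.one_le_pow _ _ hp.pos
      have h5 : 2 ≤ b ^ n := hb.trans (Nat.le_self_pow (by omega) b)
      calc 2 ≤ b ^ n := h5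
        _ ≤ _ := Nat.le_mul_of_pos_left _ h4
    · have h4 := of_Er fun y hy0 hy1 => h1 n hn1 m hm hlogm y hy0 hy1 N hN
      rw [mul_assoc]
      exact h4
  · have h3 : ((b : ℝ) ^ n) = ((b ^ n : ℕ) : ℝ) := by push_cast; rfl
    unfold root
    rw [h3]
    exact Pool.Agent.H609.RI.degree hd (Nat.one_le_pow _ _ (by omega))
  · obtain ⟨q, hqp, hqd, hqb⟩ := hq
    obtain ⟨c2, C2, hc2, hC2, n2, h2⟩ := Pool.Agent.H609.RI.fd b d q hb hd hqp hqd hqb
    refine ⟨c2, 2 * C2, hc2, by positivity, n2, fun n hn N hN => ?_⟩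
    have h4 := of_Er fun y hy0 hy1 => h2 n hn y hy0 hy1 N hN
    rw [mul_assoc]
    exact h4
  · exact Pool.Agent.H609.RI.zer b d hb hd ⟨d, dvd_pow_of (by omega) (by omega) hq⟩

end Pool.Agent.Results.MP_175f55_nt.ExplicitIntegers
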