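import Pool.Agent.H607.Tr.Sharp
import Pool.Agent.H607.Tr.Quot
import Pool.Agent.H607.Tr.Alg

/-!
# Nine translates of `√2` contain every digit, and eight translates never suffice

Let `b ≥ 2` and let `x` be irrational.

* At every place after the point the `b` numbers `x + u / (b - 1)`, `0 ≤ u ≤ b - 2`, and
  `- (b - 1) x` have `b` different digits in base `b`. For instance the ten numbers `√2 + u / 9`,
  `0 ≤ u ≤ 8`, and `- 9 √2` have ten different decimal digits at every place, and so have the ten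
  numbers `√2` and `(u - √2) / 9`. So the number of places with the digit `d` among the first `N`
  digits of `√2` is `N` minus the sum of these numbers for the nine numbers `(u - √2) / 9`.
* Each digit stands infinitely often in one of the `b - 1` numbers `x + u / (b - 1)`; for algebraic
  numbers there are lower bounds for the number of its places.
* The number `b - 1` of translates is best possible for irrational numbers: for arbitrary real
  numbers `t_1, …, t_m`, `m ≤ b - 2`, and each digit `d` there are uncountably many `x` such that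
  `d` does not stand at any place of any of the numbers `x + t_i`.

Idea of the proof. `x + u / (b - 1)` is `((b - 1) x + u) / (b - 1)`, and the numbers `u` are the
possible carries in the division by `b - 1`; the digit which does not occur is determined by the
digit of `(b - 1) x`. The lower bounds follow from library results on the distance of the digits of
`(b - 1) x` from a constant sequence. For the last part one prepends digits: each of the translates
forbids exactly one value of the new first digit, so there are always at least two choices, and there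
are `2 ^ n` fractions with denominator `b ^ n` with the property for the first `n` places, at most
`2 ^ (n - s)` of them with the same first `s` digits. A compactness argument shows that the limits of
such fractions are not a countable set.
-/

set_option autoImplicit false

namespace Pool.Agent.Results.MP_175f55_nt.NineTranslates

open Pool.Agent.H607.Tr

theorem least (b : ℕ) (hb : 2 ≤ b) (d : ℤ) (hd0 : 0 ≤ d) (hdb : d < b) :
    IsLeast {m : ℕ | ∃ t : Fin m → ℝ, ∀ x : ℝ, Irrational x →
      ∃ i, {k : ℕ | dig b (x + t i) k = d}.Infinite} (b - 1) := by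
  constructor
  · refine ⟨fun i => (i : ℕ) / ((b : ℝ) - 1), fun x hx => ?_⟩
    obtain ⟨u, hu, hinf⟩ := infinitely_often b hb x hx d hd0 hdb
    exact ⟨⟨u, by omega⟩, hinf⟩
  · rintro m ⟨t, ht⟩
    by_contra hlt
    have hm : m + 2 ≤ b := by omega
    have h1 := sharp b m hm t d
    have h2 : ∃ x ∈ {x : ℝ | ∀ i k, dig b (x + t i) k ≠ d}, Irrational x := by
      by_contra hcon
      push Not at hcon
      refine h1 ((Set.countable_range (fun q : ℚ => (q : ℝ))).mono fun x hx => ?_)
      have := hcon x hx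
      unfold Irrational at this
      push Not at this
      exact this
    obtain ⟨x, hx, hirr⟩ := h2
    obtain ⟨i, hi⟩ := ht x hirr
    obtain ⟨k, hk⟩ := hi.nonempty
    exact hx i k hk

/-- Let `x` be irrational. (1) The `b` numbers have different digits at every place. (2) The same for
`x` and the numbers `(u - x) / (b - 1)`, in terms of counts. (3) Each digit stands infinitely often in
one of the `b - 1` translates. (4) Fewer than `b - 1` translates, by arbitrary real numbers, never
suffice. (5) So `b - 1` is the least number of translates for all irrational numbers. (6), (7) Lower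
bounds for algebraic numbers. (8), (9), (10) The case of `√2`. -/
theorem result :
    (∀ (b : ℕ) (x : ℝ), 2 ≤ b → Irrational x → ∀ (k : ℕ) (d : ℤ), 0 ≤ d → d < b →
      ∃! u : ℕ, u < b ∧ dig b (member b x u) k = d) ∧
    (∀ (b : ℕ) (x : ℝ), 2 ≤ b → Irrational x → ∀ (d : ℤ) (N : ℕ), 0 ≤ d → d < b →
      count b d x N + ∑ u ∈ Finset.range (b - 1), count b d ((u - x) / ((b : ℝ) - 1)) N = N) ∧
    (∀ (b : ℕ) (x : ℝ), 2 ≤ b → Irrational x → ∀ d : ℤ, 0 ≤ d → d < b →
      ∃ u : ℕ, u + 1 < b ∧ {k : ℕ | dig b (x + u / ((b : ℝ) - 1)) k = d}.Infinite) ∧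
    (∀ (b m : ℕ) (t : Fin m → ℝ) (d : ℤ), m + 2 ≤ b →
      ¬ {x : ℝ | ∀ i k, dig b (x + t i) k ≠ d}.Countable) ∧
    (∀ (b : ℕ) (d : ℤ), 2 ≤ b → 0 ≤ d → d < b →
      IsLeast {m : ℕ | ∃ t : Fin m → ℝ, ∀ x : ℝ, Irrational x →
        ∃ i, {k : ℕ | dig b (x + t i) k = d}.Infinite} (b - 1)) ∧
    (∀ (b : ℕ) (x : ℝ), 2 ≤ b → Irrational x → ∀ P : Polynomial ℤ,
      (∀ q : ℕ, q.Prime → (q : ℤ) ∣ P.leadingCoeff → q ∣ b) → Polynomial.aeval x P = 0 →
      ∀ d : ℤ, 0 < d → d + 1 < b → ∃ c : ℝ, 0 < c ∧ ∃ N0 : ℕ, ∀ N : ℕ, N0 ≤ N →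
        c * N ≤ ((∑ u ∈ Finset.range (b - 1), count b d (x + u / ((b : ℝ) - 1)) N : ℕ) : ℝ) ^
          P.natDegree) ∧
    (∀ (b : ℕ) (x : ℝ), 2 ≤ b → Irrational x → IsAlgebraic ℚ x → ∀ d : ℤ, 0 ≤ d → d < b →
      ∃ c : ℝ, 0 < c ∧ ∃ N0 : ℕ, ∀ N : ℕ, N0 ≤ N →
        c * (Real.log N) ^ 3 / (Real.log (Real.log N)) ^ 5 ≤
          ((∑ u ∈ Finset.range (b - 1), count b d (x + u / ((b : ℝ) - 1)) N : ℕ) : ℝ)) ∧
    (∀ d : ℤ, 1 ≤ d → d ≤ 8 → ∃ c : ℝ, 0 < c ∧ ∃ N0 : ℕ, ∀ N : ℕ, N0 ≤ N → ∃ u : ℕ, u ≤ 8 ∧
      c * Real.sqrt N ≤ count 10 d (Real.sqrt 2 + u / 9) N) ∧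
    (∀ d : ℤ, 0 ≤ d → d ≤ 9 → ∃ c : ℝ, 0 < c ∧ ∃ N0 : ℕ, ∀ N : ℕ, N0 ≤ N → ∃ u : ℕ, u ≤ 8 ∧
      c * (Real.log N) ^ 3 / (Real.log (Real.log N)) ^ 5 ≤
        count 10 d (Real.sqrt 2 + u / 9) N) ∧
    ∀ d : ℤ, 0 ≤ d → d ≤ 9 → ∀ N : ℕ,
      count 10 d (Real.sqrt 2) N +
        ∑ u ∈ Finset.range 9, count 10 d ((u - Real.sqrt 2) / 9) N = N ∧
      Real.sqrt N ≤
        100 * (1 + ((∑ u ∈ Finset.range 9, count 10 d ((u - Real.sqrt 2) / 9) N : ℕ) : ℝ)) :=
  ⟨fun b x hb hx k d h0 h1 => unique_member b hb x hx k d h0 h1,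
    fun b x hb hx d N h0 h1 => quotient_counts b hb x hx d h0 h1 N,
    fun b x hb hx d h0 h1 => infinitely_often b hb x hx d h0 h1,
    fun b m t d hm => sharp b m hm t d,
    fun b d hb h0 h1 => least b hb d h0 h1,
    fun b x hb hx P hP hPx d h0 h1 => algebraic b hb x hx P hP hPx d h0 h1,
    fun b x hb hx hax d h0 h1 => all_algebraic b hb x hx hax d h0 h1,
    sqrt_two_power, sqrt_two_digits, sqrt_two_quotients⟩

end Pool.Agent.Results.MP_175f55_nt.NineTranslates
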